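import Pool.Agent.Lib.MP_2ab887_nt.Inj
import Pool.Agent.Lib.MP_2ab887_nt.Digits

/-!
# Irrational canonical heights over `K(t)`, `K` of characteristic two

The morphism `f = [(x^2 + x y)(x^2 + t x y + (t + t^2) y^2) : t y^2 (x^2 + t x y + t y^2)]` of `P^1`, of degree four,
and the point `t^2`; for `P^N` the remaining coordinates are raised to the fourth power.
-/

set_option autoImplicit false

open Filter Topology

namespace Pool.Agent.Lib.MP_2ab887_nt.Old.IrrationalHeight

open Pool.Agent.Lib.MP_2ab887_nt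

/-- The height of the point `[z_0 : ... : z_N]` of `P^N(K(t))`: the least `D` such that the point has homogeneous
coordinates in `K[t]` of degree at most `D`.  This is the degree of the morphism `P^1 → P^N`. -/
noncomputable def height {K : Type} [Field K] {N : ℕ} (z : Fin (N + 1) → RatFunc K) : ℕ :=
  sInf {D : ℕ | ∃ (c : RatFunc K) (p : Fin (N + 1) → Polynomial K), c ≠ 0 ∧
    (∀ i, algebraMap (Polynomial K) (RatFunc K) (p i) = c * z i) ∧ ∀ i, (p i).natDegree ≤ D}

/-- `F_0, ..., F_N` are forms of degree `d` over `K(t)` without common zero in an algebraic closure: they define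
a morphism `P^N → P^N` of degree `d` over `K(t)`. -/
def IsMorphism {K : Type} [Field K] {N : ℕ} (d : ℕ)
    (F : Fin (N + 1) → MvPolynomial (Fin (N + 1)) (RatFunc K)) : Prop :=
  (∀ i, (F i).IsHomogeneous d) ∧
    ∀ y : Fin (N + 1) → AlgebraicClosure (RatFunc K), (∀ i, MvPolynomial.aeval y (F i) = 0) → y = 0

/-- The image of a point under the morphism, in homogeneous coordinates. -/
noncomputable def image {K : Type} [Field K] {N : ℕ}
    (F : Fin (N + 1) → MvPolynomial (Fin (N + 1)) (RatFunc K)) (z : Fin (N + 1) → RatFunc K) :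
    Fin (N + 1) → RatFunc K :=
  fun j => MvPolynomial.eval z (F j)

/-- The sequence `d^(-n) h(f^n(P))` converges to `h`: the canonical height of `P` for `f` is `h`. -/
def CanonicalHeightIs {K : Type} [Field K] {N : ℕ} (d : ℕ)
    (F : Fin (N + 1) → MvPolynomial (Fin (N + 1)) (RatFunc K)) (z : Fin (N + 1) → RatFunc K)
    (h : ℝ) : Prop :=
  Tendsto (fun n : ℕ => (height ((image F)^[n] z) : ℝ) / (d : ℝ) ^ n) atTop (𝓝 h)

/-- The morphism of the counterexample: `FF t x y = (x^2 + x y)(x^2 + t x y + (t + t^2) y^2)`,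
`GG t x y = t y^2 (x^2 + t x y + t y^2)`. -/
noncomputable def form (K : Type) [Field K] (N : ℕ) :
    Fin (N + 1) → MvPolynomial (Fin (N + 1)) (RatFunc K) :=
  fun i =>
    if i = 0 then FF (MvPolynomial.C RatFunc.X) (MvPolynomial.X 0) (MvPolynomial.X 1)
    else if i = 1 then GG (MvPolynomial.C RatFunc.X) (MvPolynomial.X 0) (MvPolynomial.X 1)
    else MvPolynomial.X i ^ 4

/-- The point `[t^2 : 1 : 0 : ... : 0]`. -/
noncomputable def point (K : Type) [Field K] (N : ℕ) : Fin (N + 1) → RatFunc K :=
  fun i => if i = 0 then RatFunc.X ^ 2 else if i = 1 then 1 else 0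

/-! ### the polynomials of the orbit are coprime -/

open Polynomial in
theorem coprime_orb (n : ℕ) : IsCoprime (orb n).1 (orb n).2 := by
  induction n with
  | zero => exact isCoprime_one_right
  | succ n ih =>
    refine isCoprime_of_irreducible_dvd (fun h => (deg_orb (n + 1)).1 h.1) fun π hπ h1 h2 => ?_
    have : Fact (Irreducible π) := ⟨hπ⟩
    have hX : ¬ π ∣ (X : (ZMod 2)[X]) := by
      intro h
      have h3 : X ∣ (orb (n + 1)).2 :=
        ((hπ.associated_of_dvd irreducible_X h).symm.dvd).trans h2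
      rw [X_dvd_iff, orb_snd_coeff] at h3
      exact one_ne_zero h3
    have e1 : AdjoinRoot.mk π (FF X (orb n).1 (orb n).2) = 0 := by
      rw [FF_nxt _ (orb_snd_coeff n), AdjoinRoot.mk_eq_zero]
      exact h1.mul_left _
    have e2 : AdjoinRoot.mk π (GG X (orb n).1 (orb n).2) = 0 := by
      rw [GG_nxt, AdjoinRoot.mk_eq_zero]
      exact h2.mul_left _
    rw [map_FF] at e1
    rw [map_GG] at e2
    have h20 : (2 : AdjoinRoot π) = 0 := by
      have := congrArg (AdjoinRoot.mk π) two_eq_zero'
      rwa [map_ofNat, map_zero] at this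
    have hX0 : AdjoinRoot.mk π (X : (ZMod 2)[X]) ≠ 0 := by
      rwa [ne_eq, AdjoinRoot.mk_eq_zero]
    obtain ⟨a, b⟩ := no_common_zero h20 hX0 e1 e2
    rw [AdjoinRoot.mk_eq_zero] at a b
    exact hπ.not_isUnit (ih.isUnit_of_dvd' a b)

/-! ### the orbit over `K(t)` -/

section

variable (K : Type) [Field K] [CharP K 2]

open Polynomial in
/-- The inclusion of `(ZMod 2)[t]` in `K[t]`. -/
noncomputable def iota : (ZMod 2)[X] →+* K[X] := mapRingHom (ZMod.castHom (dvd_refl 2) K)

open Polynomial in
/-- The inclusion of `(ZMod 2)[t]` in `K(t)`. -/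
noncomputable def psi : (ZMod 2)[X] →+* RatFunc K := (algebraMap K[X] (RatFunc K)).comp (iota K)

open Polynomial in
theorem psi_X : psi K X = RatFunc.X := by
  simp [psi, iota, RatFunc.algebraMap_X]

open Polynomial in
theorem iota_degree (p : (ZMod 2)[X]) : (iota K p).natDegree = p.natDegree :=
  natDegree_map_eq_of_injective (ZMod.castHom (dvd_refl 2) K).injective p

open Polynomial in
theorem iota_ne {p : (ZMod 2)[X]} (hp : p ≠ 0) : iota K p ≠ 0 := by
  intro h
  exact hp ((Polynomial.map_eq_zero_iff (ZMod.castHom (dvd_refl 2) K).injective).1 h)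

omit [CharP K 2] in
theorem algebraMap_inj : Function.Injective (algebraMap (Polynomial K) (RatFunc K)) :=
  IsFractionRing.injective _ _

open Polynomial in
theorem psi_ne {p : (ZMod 2)[X]} (hp : p ≠ 0) : psi K p ≠ 0 := by
  intro h
  exact iota_ne K hp (algebraMap_inj K (h.trans (map_zero _).symm))

open Polynomial in
/-- The coordinates of the `n`-th point of the orbit. -/
noncomputable def pt (M n : ℕ) : Fin (M + 1 + 1) → RatFunc K :=
  fun i => if i = 0 then psi K (X ^ acc n * (orb n).1)
    else if i = 1 then psi K (X ^ acc n * (orb n).2) else 0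

theorem pt_zero (M : ℕ) : pt K M 0 = point K (M + 1) := by
  funext i
  simp only [pt, point, orb, acc, pow_zero, one_mul, map_pow, map_one, psi_X]

theorem pt_succ (M n : ℕ) : image (form K (M + 1)) (pt K M n) = pt K M (n + 1) := by
  funext i
  have h0 : pt K M n 0 = psi K (Polynomial.X ^ acc n * (orb n).1) := by simp [pt]
  have h1 : pt K M n 1 = psi K (Polynomial.X ^ acc n * (orb n).2) := by simp [pt]
  by_cases i0 : i = 0
  · subst i0
    have e : image (form K (M + 1)) (pt K M n) 0 =
        FF RatFunc.X (pt K M n 0) (pt K M n 1) := by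
      simp only [image, form, if_true, map_FF, MvPolynomial.eval_X, MvPolynomial.eval_C]
    rw [e, h0, h1, ← psi_X K, ← map_FF, FF_orb]
    simp [pt]
  · by_cases i1 : i = 1
    · subst i1
      have e : image (form K (M + 1)) (pt K M n) 1 =
          GG RatFunc.X (pt K M n 0) (pt K M n 1) := by
        simp only [image, form, one_ne_zero, if_false, if_true, map_GG, MvPolynomial.eval_X,
          MvPolynomial.eval_C]
      rw [e, h0, h1, ← psi_X K, ← map_GG, GG_orb]
      simp [pt]
    · simp [image, form, pt, i0, i1]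

theorem iterate_eq (M n : ℕ) : (image (form K (M + 1)))^[n] (point K (M + 1)) = pt K M n := by
  induction n with
  | zero => exact (pt_zero K M).symm
  | succ n ih => rw [Function.iterate_succ_apply', ih, pt_succ]

theorem height_pt (M n : ℕ) : height (pt K M n) = (orb n).1.natDegree := by
  have hXn : (Polynomial.X : Polynomial (ZMod 2)) ^ acc n ≠ 0 := pow_ne_zero _ Polynomial.X_ne_zero
  have hc : psi K (Polynomial.X ^ acc n) ≠ 0 := psi_ne K hXn
  have hmem : (orb n).1.natDegree ∈ {D : ℕ | ∃ (c : RatFunc K) (p : Fin (M + 1 + 1) → Polynomial K),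
      c ≠ 0 ∧ (∀ i, algebraMap (Polynomial K) (RatFunc K) (p i) = c * pt K M n i) ∧
        ∀ i, (p i).natDegree ≤ D} := by
    refine ⟨(psi K (Polynomial.X ^ acc n))⁻¹,
      fun i => if i = 0 then iota K (orb n).1 else if i = 1 then iota K (orb n).2 else 0,
      inv_ne_zero hc, fun i => ?_, fun i => ?_⟩
    · by_cases i0 : i = 0
      · subst i0
        simp only [pt, if_true, map_mul, ← mul_assoc, inv_mul_cancel₀ hc, one_mul]
        rfl
      · by_cases i1 : i = 1
        · subst i1
          simp only [pt, one_ne_zero, if_false, if_true, map_mul, ← mul_assoc,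
            inv_mul_cancel₀ hc, one_mul]
          rfl
        · simp [pt, i0, i1]
    · by_cases i0 : i = 0
      · subst i0
        simp only [if_true, iota_degree, le_refl]
      · by_cases i1 : i = 1
        · subst i1
          simp only [one_ne_zero, if_false, if_true, iota_degree]
          rw [(deg_orb n).2]
          exact Nat.le_add_right _ _
        · simp [i0, i1]
  refine le_antisymm (Nat.sInf_le hmem) (le_csInf ⟨_, hmem⟩ ?_)
  rintro D ⟨c, p, hc0, hp, hD⟩
  have h0 := hp 0
  have h1 := hp 1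
  simp only [pt, if_true, one_ne_zero, if_false, map_mul] at h0 h1
  have key : p 0 * iota K (orb n).2 = p 1 * iota K (orb n).1 := by
    apply algebraMap_inj K
    rw [map_mul, map_mul, h0, h1]
    change _ * psi K (orb n).2 = _ * psi K (orb n).1
    ring
  have hcop : IsCoprime (iota K (orb n).1) (iota K (orb n).2) := (coprime_orb n).map (iota K)
  have hdvd : iota K (orb n).1 ∣ p 0 := hcop.dvd_of_dvd_mul_right (key ▸ dvd_mul_left _ _)
  have hp0 : p 0 ≠ 0 := by
    intro h
    rw [h, map_zero] at h0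
    exact mul_ne_zero hc0 (mul_ne_zero hc (psi_ne K (deg_orb n).1)) h0.symm
  have hle := Polynomial.natDegree_le_of_dvd hdvd hp0
  rw [iota_degree] at hle
  exact hle.trans (hD 0)

end

/-! ### the limit -/

theorem limit : ∃ h : ℝ, Irrational h ∧
    Tendsto (fun n : ℕ => ((orb n).1.natDegree : ℝ) / 4 ^ n) atTop (𝓝 h) := by
  have hanti : Antitone fun n : ℕ => ((orb n).1.natDegree : ℝ) / 4 ^ n := by
    refine antitone_nat_of_succ_le fun n => ?_
    have h1 : ((orb (n + 1)).1.natDegree : ℝ) + dig (orb n) = 4 * (orb n).1.natDegree := by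
      exact_mod_cast deg_rec n
    have h2 : (0 : ℝ) ≤ dig (orb n) := Nat.cast_nonneg _
    have h4 : (0 : ℝ) < 4 ^ n := by positivity
    rw [div_le_div_iff₀ (by positivity) h4, pow_succ]
    nlinarith
  have hbdd : BddBelow (Set.range fun n : ℕ => ((orb n).1.natDegree : ℝ) / 4 ^ n) := by
    refine ⟨0, ?_⟩
    rintro _ ⟨n, rfl⟩
    positivity
  refine ⟨_, ?_, tendsto_atTop_ciInf hanti hbdd⟩
  rintro ⟨q, hq⟩
  have h := tendsto_atTop_ciInf hanti hbdd
  rw [← hq] at h
  obtain ⟨m, n, hmn, hrep⟩ := tail_repeats (α := fun n => (orb n).1.natDegree)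
    (e := fun n => dig (orb n)) deg_rec (fun n => dig_eq _) h
  exact not_same_itinerary hmn hrep

/-! ### the forms -/

section

variable (K : Type) [Field K] [CharP K 2]

omit [CharP K 2] in
theorem form_homog (M : ℕ) (i : Fin (M + 1 + 1)) : (form K (M + 1) i).IsHomogeneous 4 := by
  have hX : ∀ j : Fin (M + 1 + 1),
      (MvPolynomial.X j : MvPolynomial (Fin (M + 1 + 1)) (RatFunc K)).IsHomogeneous 1 :=
    fun j => MvPolynomial.isHomogeneous_X _ j
  have hX2 : ∀ j : Fin (M + 1 + 1),
      (MvPolynomial.X j ^ 2 : MvPolynomial (Fin (M + 1 + 1)) (RatFunc K)).IsHomogeneous 2 :=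
    fun j => (hX j).pow 2
  have hC : ∀ c : RatFunc K,
      (MvPolynomial.C c : MvPolynomial (Fin (M + 1 + 1)) (RatFunc K)).IsHomogeneous 0 :=
    fun c => MvPolynomial.isHomogeneous_C _ c
  have hC2 : (MvPolynomial.C RatFunc.X * MvPolynomial.X 1 ^ 2 :
      MvPolynomial (Fin (M + 1 + 1)) (RatFunc K)).IsHomogeneous 2 :=
    MvPolynomial.IsHomogeneous.mul (m := 0) (n := 2) (hC _) (hX2 1)
  have hC3 : ((MvPolynomial.C RatFunc.X + MvPolynomial.C RatFunc.X ^ 2) * MvPolynomial.X 1 ^ 2 :
      MvPolynomial (Fin (M + 1 + 1)) (RatFunc K)).IsHomogeneous 2 :=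
    MvPolynomial.IsHomogeneous.mul (m := 0) (n := 2) ((hC _).add ((hC _).pow 2)) (hX2 1)
  have h1 : (MvPolynomial.X 0 ^ 2 + MvPolynomial.X 0 * MvPolynomial.X 1 :
      MvPolynomial (Fin (M + 1 + 1)) (RatFunc K)).IsHomogeneous 2 :=
    (hX2 0).add ((hX 0).mul (hX 1))
  have h2 : (MvPolynomial.C RatFunc.X * MvPolynomial.X 0 * MvPolynomial.X 1 :
      MvPolynomial (Fin (M + 1 + 1)) (RatFunc K)).IsHomogeneous 2 := ((hC _).mul (hX 0)).mul (hX 1)
  unfold form FF GG
  split_ifs
  · exact MvPolynomial.IsHomogeneous.mul (m := 2) (n := 2) h1 (((hX2 0).add h2).add hC3)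
  · exact MvPolynomial.IsHomogeneous.mul (m := 2) (n := 2) hC2 (((hX2 0).add h2).add hC2)
  · exact (hX i).pow 4

theorem two_closure : (2 : AlgebraicClosure (RatFunc K)) = 0 := by
  have h := congrArg (psi K) two_eq_zero'
  rw [map_ofNat, map_zero] at h
  have h' := congrArg (algebraMap (RatFunc K) (AlgebraicClosure (RatFunc K))) h
  rwa [map_ofNat, map_zero] at h'

theorem form_noZero (M : ℕ) (y : Fin (M + 1 + 1) → AlgebraicClosure (RatFunc K))
    (hy : ∀ i, MvPolynomial.aeval y (form K (M + 1) i) = 0) : y = 0 := by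
  set τ := algebraMap (RatFunc K) (AlgebraicClosure (RatFunc K)) RatFunc.X with hτ
  have hX : τ ≠ 0 := by
    rw [hτ, ne_eq, map_eq_zero]
    exact RatFunc.X_ne_zero
  have e0 : FF τ (y 0) (y 1) = 0 := by
    have h := hy 0
    have e := map_FF (MvPolynomial.aeval y : MvPolynomial (Fin (M + 1 + 1)) (RatFunc K) →ₐ[RatFunc K]
      AlgebraicClosure (RatFunc K)).toRingHom (MvPolynomial.C RatFunc.X) (MvPolynomial.X 0)
      (MvPolynomial.X 1)
    simp only [form, if_true] at h
    simp only [AlgHom.toRingHom_eq_coe, RingHom.coe_coe, MvPolynomial.aeval_C,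
      MvPolynomial.aeval_X] at e
    rw [h] at e
    exact e.symm
  have e1 : GG τ (y 0) (y 1) = 0 := by
    have h := hy 1
    have e := map_GG (MvPolynomial.aeval y : MvPolynomial (Fin (M + 1 + 1)) (RatFunc K) →ₐ[RatFunc K]
      AlgebraicClosure (RatFunc K)).toRingHom (MvPolynomial.C RatFunc.X) (MvPolynomial.X 0)
      (MvPolynomial.X 1)
    simp only [form, one_ne_zero, if_false, if_true] at h
    simp only [AlgHom.toRingHom_eq_coe, RingHom.coe_coe, MvPolynomial.aeval_C,
      MvPolynomial.aeval_X] at e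
    rw [h] at e
    exact e.symm
  obtain ⟨a, b⟩ := no_common_zero (two_closure K) hX e0 e1
  funext i
  by_cases i0 : i = 0
  · rw [i0]
    exact a
  · by_cases i1 : i = 1
    · rw [i1]
      exact b
    · have h := hy i
      simp only [form, i0, i1, if_false, map_pow, MvPolynomial.aeval_X] at h
      exact pow_eq_zero_iff (by norm_num) |>.1 h

end

/-- For every field `K` of characteristic two and every `N ≥ 1` there are a morphism `f : P^N → P^N` of degree four
over `K(t)` and a point of `P^N(K(t))` whose canonical height is irrational. -/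
theorem result (K : Type) [Field K] [CharP K 2] (N : ℕ) (hN : 1 ≤ N) :
    IsMorphism 4 (form K N) ∧
      ∃ h : ℝ, CanonicalHeightIs 4 (form K N) (point K N) h ∧ Irrational h := by
  obtain ⟨M, rfl⟩ : ∃ M, N = M + 1 := ⟨N - 1, by omega⟩
  refine ⟨⟨form_homog K M, form_noZero K M⟩, ?_⟩
  obtain ⟨h, hirr, hlim⟩ := limit
  refine ⟨h, ?_, hirr⟩
  unfold CanonicalHeightIs
  refine hlim.congr fun n => ?_
  rw [iterate_eq, height_pt]
  norm_num

end Pool.Agent.Lib.MP_2ab887_nt.Old.IrrationalHeight
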